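import Pool.Agent.H75C.SG.Neg

set_option autoImplicit false

/-!
# Baire measurable and Borel solutions on the shift graph of `ℤᵈ`

For every `d ≥ 2` there is a locally checkable labelling problem on (undirected, unlabelled) graphs
which has a Baire measurable solution but no Borel solution on the shift graph of the free part of
`2^{ℤᵈ}`.  (The same problem has, on the graph of every free Borel action of `ℤᵈ` on a Polish space,
a solution with the property of Baire, `prob_baireSolvable`, and there is a shift-invariant Borel
probability measure on the free part for which no measurable labelling solves the problem almost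
everywhere, `no_solution`.)
-/

namespace Pool.Agent.Results.MP_eb515b_lc.BaireNotMeasurable

open MeasureTheory
open Pool.Agent.H75C.SG

theorem result (d : ℕ) (hd : 2 ≤ d) :
    ∃ L : LCL, L.HasBaireSolution d ∧ ¬ L.HasBorelSolution d := by
  obtain ⟨α, hα⟩ := Pool.Agent.W927.exists_alpha d
  have hno : ¬ (prob hd (NC d)).HasSolutionFor (cμ hα) := no_solution hd (NC d) hα
  refine ⟨prob hd (NC d), prob_baire hd, ?_⟩
  rintro ⟨f, hf, hs⟩
  exact hno ⟨f, fun l => (hf l).nullMeasurableSet, Filter.Eventually.of_forall hs⟩

end Pool.Agent.Results.MP_eb515b_lc.BaireNotMeasurable
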